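import Pool.Agent.N167.SG.Stm2
import Pool.Agent.N26.SG.Smooth2

/-! SG/9: smoothing for solutions of arbitrary sign below a subcritical envelope (project SG of
helper167), by helper833. -/

set_option autoImplicit false

namespace Pool.Agent.N833.SG

open Set Filter Topology Pool.Agent.N167.TR Pool.Agent.N167.SG Pool.Agent.N27.TR
  Pool.Agent.N97.TR Pool.Agent.N26.SG

/-- the scalar inequality `y' ≤ G - l y` where `y > 0` -/
theorem decay_pos {y y' : ℝ → ℝ} {t₀ G l E : ℝ} (hl : 0 < l) (ht₀ : 0 ≤ t₀)
    (hd : ∀ s, t₀ ≤ s → HasDerivWithinAt y (y' s) (Ici 0) s)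
    (hb : ∀ s, t₀ ≤ s → 0 < y s → y' s ≤ G - l * y s) (h0 : y t₀ ≤ E) (hE : 0 ≤ E) (hG : 0 ≤ G)
    {t : ℝ} (ht : t₀ ≤ t) : y t ≤ G / l + E * Real.exp (-(l * (t - t₀))) := by
  have key := Pool.Agent.N415.DY.t_scalar (t - t₀) E
    (fun s => (y (t₀ + s) - G / l) * Real.exp (l * s))
    (fun s => y' (t₀ + s) * Real.exp (l * s) + (y (t₀ + s) - G / l) * (Real.exp (l * s) * l))
    (by linarith)
    (by
      intro s hs
      have h1 : HasDerivWithinAt (fun s : ℝ => t₀ + s) 1 (Icc 0 (t - t₀)) s :=
        ((hasDerivAt_id s).const_add t₀).hasDerivWithinAt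
      have h2 : HasDerivWithinAt (fun s => y (t₀ + s)) (y' (t₀ + s)) (Icc 0 (t - t₀)) s := by
        have h := HasDerivWithinAt.comp (h := fun s : ℝ => t₀ + s) (h₂ := y) (s' := Ici 0) s
          (hd (t₀ + s) (by linarith [hs.1])) h1
          (by
            intro u hu
            simp only [mem_Ici]
            linarith [hu.1])
        rw [mul_one] at h
        exact h
      have h3 : HasDerivWithinAt (fun s => Real.exp (l * s)) (Real.exp (l * s) * l)
          (Icc 0 (t - t₀)) s := by
        have := (((hasDerivAt_id s).const_mul l).exp).hasDerivWithinAt (s := Icc 0 (t - t₀))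
        simpa using this
      exact (h2.sub_const (G / l)).mul h3)
    (by
      simp only [add_zero, mul_zero, Real.exp_zero, mul_one]
      have : 0 ≤ G / l := div_nonneg hG hl.le
      linarith)
    (by
      intro s hs hys
      have hexp : 0 < Real.exp (l * s) := Real.exp_pos _
      have hy1 : 0 < y (t₀ + s) - G / l := by
        by_contra hneg
        have h4 : (y (t₀ + s) - G / l) * Real.exp (l * s) ≤ 0 :=
          mul_nonpos_of_nonpos_of_nonneg (not_lt.1 hneg) hexp.le
        linarith
      have hy2 : 0 < y (t₀ + s) := by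
        have : 0 ≤ G / l := div_nonneg hG hl.le
        linarith
      have h1 := hb (t₀ + s) (by linarith [hs.1]) hy2
      have h2 : y' (t₀ + s) * Real.exp (l * s) +
          (y (t₀ + s) - G / l) * (Real.exp (l * s) * l) =
          (y' (t₀ + s) - (G - l * y (t₀ + s))) * Real.exp (l * s) := by
        field_simp
        ring
      rw [h2]
      exact mul_nonpos_of_nonpos_of_nonneg (by linarith) hexp.le)
    (t - t₀) ⟨by linarith, le_rfl⟩
  simp only [add_sub_cancel] at key
  have h1 : y t - G / l ≤ E * Real.exp (-(l * (t - t₀))) := by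
    rw [Real.exp_neg, ← div_eq_mul_inv, le_div_iff₀ (Real.exp_pos _)]
    exact key
  linarith

/-- **SG/9.** -/
theorem smooth3 : S_smooth3 := by
  intro M B D ν θ F A m N₀ f x X hM hB hD hν hθ hF hf hX hXA hm hXm hbd hcr τ hτ
  obtain ⟨E, hE⟩ := hbd
  have hE0 : 0 ≤ E := (abs_nonneg _).trans (hE [] 0 le_rfl)
  have hD0 : 0 < D := by linarith
  have hMR : (0 : ℝ) < M := by exact_mod_cast hM
  set p : ℕ → ℝ := fun n => max (m n) 0 with hp
  have hp0 : ∀ n, 0 ≤ p n := fun n => le_max_right _ _
  have hpe : ∀ ε : ℝ, 0 < ε → ∃ N : ℕ, ∀ n, N ≤ n → B ^ n * p n ≤ ε * D ^ n := by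
    intro ε hε
    obtain ⟨N, hN⟩ := hm ε hε
    refine ⟨N, fun n hn => ?_⟩
    simp only [hp]
    rcases le_total (m n) 0 with h | h
    · rw [max_eq_right h, mul_zero]
      positivity
    · rw [max_eq_left h]
      exact hN n hn
  set A' : ℕ → ℝ := fun n => max (A n) 0 + p n with hA'
  have hA'0 : ∀ n, 0 ≤ A' n := fun n => add_nonneg (le_max_right _ _) (hp0 n)
  have hlow : ∀ j, ∀ t, 0 ≤ t → -p j.length ≤ X j t := by
    intro j t ht
    have h1 := hXm j t ht
    have h2 : m j.length ≤ p j.length := le_max_left _ _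
    linarith
  have habs : ∀ j, ∀ t, 0 ≤ t → |X j t| ≤ A' j.length := by
    intro j t ht
    rw [abs_le]
    have h1 := hlow j t ht
    have h2 := hXA j t ht
    have h3 : A j.length ≤ max (A j.length) 0 := le_max_left _ _
    have h4 : 0 ≤ max (A j.length) 0 := le_max_right _ _
    have h5 := hp0 j.length
    simp only [hA']
    constructor <;> linarith
  set θ₀ : ℝ := max θ 0 with hθ₀
  have hθ₀0 : 0 ≤ θ₀ := le_max_right _ _
  have hθ₀1 : θ₀ < 1 := max_lt hθ one_pos
  set θ₁ : ℝ := (1 + θ₀) / 2 with hθ₁
  have hθ₁0 : θ₀ < θ₁ := by rw [hθ₁]; linarith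
  have hθ₁1 : θ₁ < 1 := by rw [hθ₁]; linarith
  -- the envelope
  obtain ⟨N₁, hN₁⟩ := hpe ((θ₁ - θ₀) * (ν * D) / (B / D)) (by
    have : 0 < θ₁ - θ₀ := by linarith
    positivity)
  have hcr' : ∀ n, N₀ + N₁ ≤ n → B / D * (B ^ n * A' n) ≤ θ₁ * (ν * D ^ (n + 1)) := by
    intro n hn
    have h1 := hcr n (by omega)
    have h2 : 0 < ν * D ^ (n + 1) := by positivity
    have h3 : B / D * (B ^ n * max (A n) 0) ≤ θ₀ * (ν * D ^ (n + 1)) := by
      rcases le_total (A n) 0 with h | h
      · rw [max_eq_right h, mul_zero, mul_zero]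
        positivity
      · rw [max_eq_left h]
        exact h1.trans (mul_le_mul_of_nonneg_right (le_max_left _ _) h2.le)
    have h4 : B / D * (B ^ n * p n) ≤ (θ₁ - θ₀) * (ν * D ^ (n + 1)) := by
      have h5 := hN₁ n (by omega)
      have h6 := mul_le_mul_of_nonneg_left h5 (by positivity : 0 ≤ B / D)
      refine h6.trans (le_of_eq ?_)
      field_simp
      ring
    have h8 : B / D * (B ^ n * A' n) = B / D * (B ^ n * max (A n) 0) + B / D * (B ^ n * p n) := by
      simp only [hA']; ring
    rw [h8]
    linarith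
  -- the loss of viscosity
  set e : ℝ := (1 - θ₁) / 2 with he
  have he0 : 0 < e := by rw [he]; linarith
  have he1 : 0 < 1 - e := by rw [he]; linarith
  obtain ⟨N₂, hN₂⟩ := hpe (e * ν * B / (M * D)) (by positivity)
  have hloss : ∀ n, N₂ ≤ n → B ^ (n + 1) * (M * p (n + 2)) ≤ e * (ν * D ^ (n + 1)) := by
    intro n hn
    have h1 := hN₂ (n + 2) (by omega)
    have h2 := mul_le_mul_of_nonneg_left h1 (by positivity : 0 ≤ (M : ℝ) / B)
    have h3 : (M : ℝ) / B * (B ^ (n + 2) * p (n + 2)) = B ^ (n + 1) * (M * p (n + 2)) := by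
      field_simp
      ring
    have h4 : (M : ℝ) / B * (e * ν * B / (M * D) * D ^ (n + 2)) = e * (ν * D ^ (n + 1)) := by
      field_simp
      ring
    rw [h3, h4] at h2
    exact h2
  set ν₁ : ℝ := (1 - e) * ν with hν₁
  have hν₁0 : 0 < ν₁ := by positivity
  -- the times
  set T : ℕ → ℝ := fun n => τ * (1 - 1 / ((n : ℝ) + 2)) with hT
  have hTle : ∀ n, T n ≤ τ := by
    intro n
    simp only [hT]
    have : 0 < 1 / ((n : ℝ) + 2) := by positivity
    nlinarith
  have hT0 : ∀ n, 0 ≤ T n := by
    intro n
    simp only [hT]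
    have : 1 / ((n : ℝ) + 2) ≤ 1 := by
      rw [div_le_one (by positivity)]
      have : (0 : ℝ) ≤ n := Nat.cast_nonneg n
      linarith
    exact mul_nonneg hτ.le (by linarith)
  have hTs : ∀ n, T (n + 1) - T n = τ / (((n : ℝ) + 2) * (n + 3)) := by
    intro n
    simp only [hT]
    push_cast
    field_simp
    ring
  have hTm : ∀ n, T n ≤ T (n + 1) := by
    intro n
    have h1 := hTs n
    have h2 : 0 ≤ τ / (((n : ℝ) + 2) * (n + 3)) := by positivity
    linarith
  -- the bounds
  set ex : ℕ → ℝ := fun n : ℕ => E * Real.exp (-(ν₁ * τ * D ^ n / ((n + 1) * (n + 2)))) with hex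
  have hex0 : ∀ n, 0 ≤ ex n := fun n => mul_nonneg hE0 (Real.exp_pos _).le
  have hexR : Rapid ex := rapid_cmul (rapid_exp hD (mul_pos hν₁0 hτ)) hE0
  set h : ℕ → ℝ := fun n => max (F n) 0 / (ν₁ * D ^ n) + ex n
    + (if n ≤ N₂ then A' n else 0) with hh
  have hfin0 : ∀ n, 0 ≤ (if n ≤ N₂ then A' n else 0) := by
    intro n
    split_ifs
    · exact hA'0 n
    · exact le_rfl
  have hF0 : ∀ n, 0 ≤ max (F n) 0 / (ν₁ * D ^ n) := fun n =>
    div_nonneg (le_max_right _ _) (by positivity)
  have hh0 : ∀ n, 0 ≤ h n := fun n =>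
    add_nonneg (add_nonneg (hF0 n) (hex0 n)) (hfin0 n)
  have hhR : Rapid h := by
    refine rapid_add (rapid_add ?_ hexR) ?_
    · refine rapid_mono (rapid_cmul (rapid_pos hF) (c := ν₁⁻¹) (by positivity)) fun n => ?_
      have h1 : (1 : ℝ) ≤ D ^ n := one_le_pow₀ hD.le
      rw [div_le_iff₀ (by positivity)]
      have h3 : ν₁⁻¹ * max (F n) 0 * (ν₁ * D ^ n) = max (F n) 0 * D ^ n := by
        field_simp
      rw [h3]
      exact le_mul_of_one_le_right (le_max_right _ _) h1
    · refine rapid_of_eventually fun ρ _ => ⟨0, N₂ + 1, fun n hn => ?_⟩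
      rw [if_neg (by omega)]
      simp
  set a : ℕ → ℝ := bd B D ν₁ A' h with ha
  have ha0 : ∀ n, 0 ≤ a n := bd_nonneg hB hD0 hν₁0 hh0
  have haA : ∀ n, a n ≤ A' n := bd_le hA'0
  have hmain : ∀ j, ∀ t, T j.length ≤ t → |X j t| ≤ a j.length := by
    intro j
    induction j with
    | nil =>
      intro t ht
      exact (habs [] t ((hT0 _).trans ht)).trans (le_max_left _ _)
    | cons k j ih =>
      intro t ht
      rw [List.length_cons] at ht ⊢
      have ht0 : 0 ≤ t := (hT0 _).trans ht
      have e1 : a (j.length + 1) = min (max (A' (j.length + 1)) 0)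
        (h (j.length + 1) + B ^ j.length * a j.length ^ 2 / (ν₁ * D ^ (j.length + 1))) := rfl
      rw [e1]
      refine le_min ((habs (k :: j) t ht0).trans (le_max_left _ _)) ?_
      have hq0 : 0 ≤ B ^ j.length * a j.length ^ 2 / (ν₁ * D ^ (j.length + 1)) := by positivity
      by_cases hj : j.length + 1 ≤ N₂
      · have h1 := habs (k :: j) t ht0
        rw [List.length_cons] at h1
        have h2 : A' (j.length + 1) ≤ h (j.length + 1) := by
          simp only [hh]
          rw [if_pos hj]
          linarith [hF0 (j.length + 1), hex0 (j.length + 1)]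
        linarith
      · have hvis : 0 < ν₁ * D ^ (j.length + 1) := by positivity
        -- the sum over the children
        have g4 : ∀ s, 0 ≤ s → -(M * p (j.length + 2)) ≤ ∑ l : Fin M, X (l :: k :: j) s := by
          intro s hs
          have h1 : ∑ _l : Fin M, (-p (j.length + 2)) ≤ ∑ l : Fin M, X (l :: k :: j) s :=
            Finset.sum_le_sum fun l _ => hlow (l :: k :: j) s hs
          rw [Finset.sum_const, Finset.card_univ, Fintype.card_fin, nsmul_eq_mul] at h1
          linarith
        have hls := hloss j.length (by omega)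
        have g7 : ∀ z : ℝ, ν₁ * D ^ (j.length + 1) * z
            = ν * D ^ (j.length + 1) * z - e * (ν * D ^ (j.length + 1)) * z := by
          intro z
          rw [hν₁]; ring
        -- the comparison of the exponentials
        have hexp : E * Real.exp (-(ν₁ * D ^ (j.length + 1) * (t - T j.length))) ≤
            ex (j.length + 1) := by
          refine mul_le_mul_of_nonneg_left (Real.exp_le_exp.2 ?_) hE0
          have h2 := hTs j.length
          have h3 : τ / (((j.length : ℝ) + 2) * (j.length + 3)) ≤ t - T j.length := by linarith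
          have h4 := mul_le_mul_of_nonneg_left h3 hvis.le
          have h5 : ν₁ * D ^ (j.length + 1) * (τ / (((j.length : ℝ) + 2) * (j.length + 3))) =
              ν₁ * τ * D ^ (j.length + 1) /
                (((j.length + 1 : ℕ) + 1 : ℝ) * ((j.length + 1 : ℕ) + 2)) := by
            push_cast
            field_simp
            ring
          linarith
        -- from above
        have hup : X (k :: j) t ≤ (max (F (j.length + 1)) 0 + B ^ j.length * a j.length ^ 2) /
            (ν₁ * D ^ (j.length + 1)) + E * Real.exp (-(ν₁ * D ^ (j.length + 1) *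
              (t - T j.length))) := by
          refine decay_pos (y := X (k :: j))
            (y' := fun s => rhs B D ν (fun i => f i s) (fun i => X i s) (k :: j))
            hvis (hT0 j.length) (fun s hs => hX.2 (k :: j) s ((hT0 _).trans hs)) ?_
            ((le_abs_self _).trans (hE (k :: j) _ (hT0 _))) hE0
            (add_nonneg (le_max_right _ _) (by positivity)) ((hTm _).trans ht)
          intro s hs hXs
          have hs0 : 0 ≤ s := (hT0 _).trans hs
          have g1 : f (k :: j) s ≤ max (F (j.length + 1)) 0 :=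
            ((le_abs_self _).trans (hf (k :: j) s hs0)).trans (le_max_left _ _)
          have g2 : X j s ^ 2 ≤ a j.length ^ 2 := by
            rw [← sq_abs (X j s)]
            exact pow_le_pow_left₀ (abs_nonneg _) (ih s hs) 2
          have g3 : B ^ j.length * X j s ^ 2 ≤ B ^ j.length * a j.length ^ 2 :=
            mul_le_mul_of_nonneg_left g2 (pow_pos hB _).le
          have g5 : -(e * (ν * D ^ (j.length + 1))) * X (k :: j) s ≤
              B ^ (j.length + 1) * X (k :: j) s * ∑ l : Fin M, X (l :: k :: j) s := by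
            have h2 : B ^ (j.length + 1) * X (k :: j) s * (-(M * p (j.length + 2))) ≤
                B ^ (j.length + 1) * X (k :: j) s * ∑ l : Fin M, X (l :: k :: j) s :=
              mul_le_mul_of_nonneg_left (g4 s hs0) (by positivity)
            have h3 : B ^ (j.length + 1) * (M * p (j.length + 2)) * X (k :: j) s ≤
                e * (ν * D ^ (j.length + 1)) * X (k :: j) s :=
              mul_le_mul_of_nonneg_right hls hXs.le
            linarith
          have g8 := g7 (X (k :: j) s)
          simp only [rhs, inflow, List.length_cons]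
          linarith
        -- from below
        have hdn : -X (k :: j) t ≤ max (F (j.length + 1)) 0 /
            (ν₁ * D ^ (j.length + 1)) + E * Real.exp (-(ν₁ * D ^ (j.length + 1) *
              (t - T j.length))) := by
          refine decay_pos (y := fun s => -X (k :: j) s)
            (y' := fun s => -rhs B D ν (fun i => f i s) (fun i => X i s) (k :: j))
            hvis (hT0 j.length) (fun s hs => (hX.2 (k :: j) s ((hT0 _).trans hs)).neg) ?_
            ((neg_le_abs _).trans (hE (k :: j) _ (hT0 _))) hE0
            (le_max_right _ _) ((hTm _).trans ht)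
          intro s hs hXs
          have hs0 : 0 ≤ s := (hT0 _).trans hs
          have g1 : -f (k :: j) s ≤ max (F (j.length + 1)) 0 :=
            ((neg_le_abs _).trans (hf (k :: j) s hs0)).trans (le_max_left _ _)
          have g3 : 0 ≤ B ^ j.length * X j s ^ 2 := by positivity
          have g5 : -(e * (ν * D ^ (j.length + 1))) * (-X (k :: j) s) ≤
              B ^ (j.length + 1) * (-X (k :: j) s) * ∑ l : Fin M, X (l :: k :: j) s := by
            have h2 : B ^ (j.length + 1) * (-X (k :: j) s) * (-(M * p (j.length + 2))) ≤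
                B ^ (j.length + 1) * (-X (k :: j) s) * ∑ l : Fin M, X (l :: k :: j) s :=
              mul_le_mul_of_nonneg_left (g4 s hs0) (by positivity)
            have h3 : B ^ (j.length + 1) * (M * p (j.length + 2)) * (-X (k :: j) s) ≤
                e * (ν * D ^ (j.length + 1)) * (-X (k :: j) s) :=
              mul_le_mul_of_nonneg_right hls hXs.le
            linarith
          have g8 := g7 (-X (k :: j) s)
          simp only [rhs, inflow, List.length_cons]
          linarith
        have hh1 : h (j.length + 1) = max (F (j.length + 1)) 0 / (ν₁ * D ^ (j.length + 1))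
            + ex (j.length + 1)
            + (if j.length + 1 ≤ N₂ then A' (j.length + 1) else 0) := rfl
        have i2 := hF0 (j.length + 1)
        have i4 := hfin0 (j.length + 1)
        rw [add_div] at hup
        rw [abs_le]
        constructor
        · rw [hh1]; linarith
        · rw [hh1]; linarith
  refine ⟨a, ?_, fun j t ht => hmain j t ((hTle _).trans ht)⟩
  refine boot B D ν₁ (θ₁ / (1 - e)) a A' h (N₀ + N₁) hB hD hν₁0 ?_ ha0 haA hh0 hhR
    (fun n => min_le_right _ _) fun n hn => ?_
  · rw [div_lt_one he1, he]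
    linarith
  · refine (hcr' n hn).trans (le_of_eq ?_)
    rw [hν₁]
    field_simp

end Pool.Agent.N833.SG
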